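import Pool.Agent.Helper50.VD.St

open MeasureTheory Set Filter Topology
open scoped ENNReal

noncomputable section

namespace VD.M_P0

/-- the linear form of an edge -/
def vl (z : ℝ × ℝ) (e : ℕ × ℕ × ℕ) : ℝ := ((e.1 : ℝ) * |z.1| + e.2.1 * z.2) / e.2.2

theorem gE_cons (z : ℝ × ℝ) (e : ℕ × ℕ × ℕ) (l : List (ℕ × ℕ × ℕ)) :
    gE z (e :: l) = max (vl z e) (gE z l) := by
  obtain ⟨dh, dx, c⟩ := e
  rfl

theorem gE_nonneg (z : ℝ × ℝ) (l : List (ℕ × ℕ × ℕ)) : 0 ≤ gE z l := by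
  induction l with
  | nil => exact le_rfl
  | cons e l ih =>
    rw [gE_cons]
    exact ih.trans (le_max_right _ _)

theorem le_gE (z : ℝ × ℝ) (l : List (ℕ × ℕ × ℕ)) : ∀ e ∈ l, vl z e ≤ gE z l := by
  induction l with
  | nil => simp
  | cons e l ih =>
    intro e' he'
    rw [gE_cons]
    rcases List.mem_cons.1 he' with rfl | h
    · exact le_max_left _ _
    · exact (ih e' h).trans (le_max_right _ _)

theorem gE_le {z : ℝ × ℝ} {l : List (ℕ × ℕ × ℕ)} {b : ℝ} (hb : 0 ≤ b)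
    (h : ∀ e ∈ l, vl z e ≤ b) : gE z l ≤ b := by
  induction l with
  | nil => exact hb
  | cons e l ih =>
    rw [gE_cons]
    exact max_le (h e (List.mem_cons_self ..)) (ih fun e' he' => h e' (List.mem_cons_of_mem _ he'))

theorem gE_lt {z : ℝ × ℝ} {l : List (ℕ × ℕ × ℕ)} {b : ℝ} (hb : 0 < b)
    (h : ∀ e ∈ l, vl z e < b) : gE z l < b := by
  induction l with
  | nil => exact hb
  | cons e l ih =>
    rw [gE_cons]
    exact max_lt (h e (List.mem_cons_self ..)) (ih fun e' he' => h e' (List.mem_cons_of_mem _ he'))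

theorem gE_eq {z : ℝ × ℝ} {l : List (ℕ × ℕ × ℕ)} : gE z l = 0 ∨ ∃ e ∈ l, gE z l = vl z e := by
  induction l with
  | nil => exact Or.inl rfl
  | cons e l ih =>
    rw [gE_cons]
    rcases max_cases (vl z e) (gE z l) with ⟨h, _⟩ | ⟨h, _⟩
    · exact Or.inr ⟨e, List.mem_cons_self .., h⟩
    · rw [h]
      rcases ih with ih | ⟨e', he', ih⟩
      · exact Or.inl ih
      · exact Or.inr ⟨e', List.mem_cons_of_mem _ he', ih⟩

theorem continuous_vl (e : ℕ × ℕ × ℕ) : Continuous fun z : ℝ × ℝ => vl z e := by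
  unfold vl
  have h1 : Continuous fun z : ℝ × ℝ => |z.1| := continuous_abs.comp continuous_fst
  exact ((continuous_const.mul h1).add (continuous_const.mul continuous_snd)).div_const _

theorem continuous_gE (l : List (ℕ × ℕ × ℕ)) : Continuous fun z : ℝ × ℝ => gE z l := by
  induction l with
  | nil => exact continuous_const
  | cons e l ih =>
    have : (fun z : ℝ × ℝ => gE z (e :: l)) = fun z => max (vl z e) (gE z l) := by
      funext z
      exact gE_cons z e l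
    rw [this]
    exact (continuous_vl e).max ih

theorem vl_smul (z : ℝ × ℝ) (e : ℕ × ℕ × ℕ) {r : ℝ} (hr : 0 ≤ r) :
    vl (r * z.1, r * z.2) e = r * vl z e := by
  unfold vl
  simp only [abs_mul, abs_of_nonneg hr]
  ring

theorem gE_smul (z : ℝ × ℝ) (l : List (ℕ × ℕ × ℕ)) {r : ℝ} (hr : 0 ≤ r) :
    gE (r * z.1, r * z.2) l = r * gE z l := by
  induction l with
  | nil =>
    show (0 : ℝ) = r * 0
    ring
  | cons e l ih =>
    rw [gE_cons, gE_cons, ih, vl_smul z e hr, mul_max_of_nonneg _ _ hr]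

/-- the edges -/
theorem edges : ∀ e ∈ Es, 0 < e.1 ∧ 0 < e.2.1 ∧ 0 < e.2.2 ∧ 6475 * e.1 ≤ e.2.2 ∧
    3887 * e.2.1 ≤ e.2.2 := by decide

theorem vl_le {z : ℝ × ℝ} (hz : 0 ≤ z.2) {e : ℕ × ℕ × ℕ} (he : e ∈ Es) :
    vl z e ≤ |z.1| / 6475 + z.2 / 3887 := by
  obtain ⟨h1, h2, h3, h4, h5⟩ := edges e he
  have h3' : (0 : ℝ) < (e.2.2 : ℝ) := by exact_mod_cast h3
  have h4' : 6475 * (e.1 : ℝ) ≤ (e.2.2 : ℝ) := by exact_mod_cast h4
  have h5' : 3887 * (e.2.1 : ℝ) ≤ (e.2.2 : ℝ) := by exact_mod_cast h5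
  unfold vl
  rw [div_le_iff₀ h3']
  have ha : 0 ≤ |z.1| / 6475 := by positivity
  have hb : 0 ≤ z.2 / 3887 := by positivity
  have e1 : (e.1 : ℝ) * |z.1| = (6475 * (e.1 : ℝ)) * (|z.1| / 6475) := by ring
  have e2 : (e.2.1 : ℝ) * z.2 = (3887 * (e.2.1 : ℝ)) * (z.2 / 3887) := by ring
  rw [e1, e2]
  have i1 := mul_le_mul_of_nonneg_right h4' ha
  have i2 := mul_le_mul_of_nonneg_right h5' hb
  calc _ ≤ (e.2.2 : ℝ) * (|z.1| / 6475) + (e.2.2 : ℝ) * (z.2 / 3887) := add_le_add i1 i2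
    _ = _ := by ring

theorem vl_mono {z w : ℝ × ℝ} (h1 : |z.1| ≤ |w.1|) (h2 : z.2 ≤ w.2) (e : ℕ × ℕ × ℕ) :
    vl z e ≤ vl w e := by
  unfold vl
  gcongr

theorem vl_lt_fst {z w : ℝ × ℝ} (h1 : |z.1| < |w.1|) (h2 : z.2 ≤ w.2) {e : ℕ × ℕ × ℕ}
    (he : e ∈ Es) : vl z e < vl w e := by
  obtain ⟨h3, _, h4, _, _⟩ := edges e he
  have h3' : (0 : ℝ) < (e.1 : ℝ) := by exact_mod_cast h3
  have h4' : (0 : ℝ) < (e.2.2 : ℝ) := by exact_mod_cast h4
  unfold vl
  rw [div_lt_div_iff_of_pos_right h4']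
  have i1 := mul_lt_mul_of_pos_left h1 h3'
  have i2 : (e.2.1 : ℝ) * z.2 ≤ (e.2.1 : ℝ) * w.2 := by gcongr
  linarith

theorem vl_lt_snd {z w : ℝ × ℝ} (h1 : |z.1| ≤ |w.1|) (h2 : z.2 < w.2) {e : ℕ × ℕ × ℕ}
    (he : e ∈ Es) : vl z e < vl w e := by
  obtain ⟨_, h3, h4, _, _⟩ := edges e he
  have h3' : (0 : ℝ) < (e.2.1 : ℝ) := by exact_mod_cast h3
  have h4' : (0 : ℝ) < (e.2.2 : ℝ) := by exact_mod_cast h4
  unfold vl
  rw [div_lt_div_iff_of_pos_right h4']
  have i1 := mul_lt_mul_of_pos_left h2 h3'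
  have i2 : (e.1 : ℝ) * |z.1| ≤ (e.1 : ℝ) * |w.1| := by gcongr
  linarith

theorem g_nonneg (z : ℝ × ℝ) : 0 ≤ g z := gE_nonneg z Es

theorem g_bounds {z : ℝ × ℝ} (hz : 0 ≤ z.2) :
    0 ≤ g z ∧ |z.1| ≤ 6475 * g z ∧ z.2 ≤ 3887 * g z ∧ g z ≤ |z.1| / 6475 + z.2 / 3887 := by
  refine ⟨g_nonneg z, ?_, ?_, ?_⟩
  · have h1 : vl z (191, 46, 1236725) ≤ g z := le_gE z Es _ (by decide)
    unfold vl at h1
    rw [div_le_iff₀ (by norm_num)] at h1
    push_cast at h1
    nlinarith [abs_nonneg z.1]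
  · have h1 : vl z (48, 896, 3482752) ≤ g z := le_gE z Es _ (by decide)
    unfold vl at h1
    rw [div_le_iff₀ (by norm_num)] at h1
    push_cast at h1
    nlinarith [abs_nonneg z.1]
  · exact gE_le (by positivity) fun e he => vl_le hz he

theorem g_mono {z w : ℝ × ℝ} (h1 : |z.1| ≤ |w.1|) (h2 : z.2 ≤ w.2) : g z ≤ g w :=
  gE_le (g_nonneg w) fun e he => (vl_mono h1 h2 e).trans (le_gE w Es e he)

theorem g_smul (z : ℝ × ℝ) {r : ℝ} (hr : 0 ≤ r) : g (r * z.1, r * z.2) = r * g z :=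
  gE_smul z Es hr

theorem isOpen_PB (r : ℝ) : IsOpen (PB r) :=
  (isOpen_lt continuous_const continuous_snd).inter
    (isOpen_lt (continuous_gE Es) continuous_const)

theorem DM_PB {r : ℝ} (hr : 0 < r) : DM (PB r) := by
  refine ⟨(isOpen_PB r).measurableSet, fun z hz => hz.1, ⟨6475 * r, ?_⟩, ?_⟩
  · intro z hz
    obtain ⟨h1, h2⟩ := hz
    obtain ⟨h3, h4, h5, h6⟩ := g_bounds h1.le
    refine ⟨by nlinarith, h1, by nlinarith⟩
  · intro z hz w hw h1 h2
    exact ⟨hw, (g_mono h1 h2).trans_lt hz.2⟩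

theorem PB_nonempty {r : ℝ} (hr : 0 < r) : (PB r).Nonempty := by
  refine ⟨(0, r), hr, ?_⟩
  obtain ⟨_, _, _, h⟩ := g_bounds (z := (0, r)) hr.le
  refine h.trans_lt ?_
  simp only [abs_zero]
  linarith

theorem PB_eq {r : ℝ} (hr : 0 < r) : PB r = dil r (PB 1) := by
  ext z
  show (0 < z.2 ∧ g z < r) ↔ (0 < z.2 / r ∧ g (z.1 / r, z.2 / r) < 1)
  have h1 : g z = r * g (z.1 / r, z.2 / r) := by
    rw [← g_smul _ hr.le]
    congr 1
    ext
    · show z.1 = r * (z.1 / r)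
      field_simp
    · show z.2 = r * (z.2 / r)
      field_simp
  rw [h1]
  constructor
  · rintro ⟨h2, h3⟩
    refine ⟨by positivity, ?_⟩
    by_contra hcon
    have := mul_le_mul_of_nonneg_left (not_lt.1 hcon) hr.le
    linarith
  · rintro ⟨h2, h3⟩
    refine ⟨?_, ?_⟩
    · have := mul_pos h2 hr
      rwa [div_mul_cancel₀ _ hr.ne'] at this
    · have := mul_lt_mul_of_pos_left h3 hr
      linarith

theorem vl_null {e : ℕ × ℕ × ℕ} (he : e ∈ Es) (r : ℝ) :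
    volume {z : ℝ × ℝ | vl z e = r} = 0 := by
  obtain ⟨_, h3, h4, _, _⟩ := edges e he
  have h3' : (0 : ℝ) < (e.2.1 : ℝ) := by exact_mod_cast h3
  have h4' : (0 : ℝ) < (e.2.2 : ℝ) := by exact_mod_cast h4
  have hm : MeasurableSet {z : ℝ × ℝ | vl z e = r} :=
    (isClosed_eq (continuous_vl e) continuous_const).measurableSet
  rw [Measure.volume_eq_prod, Measure.measure_prod_null hm]
  refine Filter.Eventually.of_forall fun x => ?_
  apply Set.Subsingleton.measure_zero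
  intro y hy y' hy'
  have h1 : vl (x, y) e = r := hy
  have h2 : vl (x, y') e = r := hy'
  unfold vl at h1 h2
  rw [div_eq_iff h4'.ne'] at h1 h2
  simp only at h1 h2
  have h5 : (e.2.1 : ℝ) * y = (e.2.1 : ℝ) * y' := by linarith
  exact mul_left_cancel₀ h3'.ne' h5

theorem level_null {r : ℝ} (hr : 0 < r) : volume {z : ℝ × ℝ | 0 < z.2 ∧ g z = r} = 0 := by
  have hsub : {z : ℝ × ℝ | 0 < z.2 ∧ g z = r} ⊆ ⋃ e ∈ Es.toFinset, {z : ℝ × ℝ | vl z e = r} := by
    rintro z ⟨_, hz⟩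
    rcases gE_eq (z := z) (l := Es) with h | ⟨e, he, h⟩
    · exfalso
      have : g z = 0 := h
      linarith
    · simp only [mem_iUnion]
      refine ⟨e, List.mem_toFinset.2 he, ?_⟩
      show vl z e = r
      rw [← h]
      exact hz
  refine measure_mono_null hsub ?_
  refine (measure_biUnion_null_iff (Finset.countable_toSet Es.toFinset)).2 ?_
  intro e he
  exact vl_null (List.mem_toFinset.1 (Finset.mem_coe.1 he)) r

end VD.M_P0

namespace VD

open VD.M_P0 in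
/-- all elementary facts about the gauge g and the polygon PB -/
theorem mP0 : StP0 := by
  refine ⟨continuous_gE Es, fun r z hr => g_smul z hr, fun z hz => g_bounds hz,
    fun z w _ h1 h2 => g_mono h1 h2, ?_, ?_, ?_⟩
  · intro z w hz h1 h2
    have hw : 0 < g w := by
      have := (g_bounds (hz.trans h2)).2.1
      have := (abs_nonneg z.1).trans_lt h1
      linarith
    exact gE_lt hw fun e he => (vl_lt_fst h1 h2 he).trans_le (le_gE w Es e he)
  · intro z w hz h1 h2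
    have hw : 0 < g w := by
      have := (g_bounds (hz.trans h2.le)).2.2.1
      linarith
    exact gE_lt hw fun e he => (vl_lt_snd h1 h2 he).trans_le (le_gE w Es e he)
  · intro r hr
    exact ⟨DM_PB hr, PB_nonempty hr, (isOpen_PB r).measure_pos volume (PB_nonempty hr), PB_eq hr,
      level_null hr⟩

end VD
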